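import Pool.Agent.Lib.MP_182bbb_co.TT.Iface

/-!
# ALL: without the expansion there are few triples all of whose pairs are light
-/

open Finset

namespace MP_182bbb_co.TT.H95

open MP_182bbb_co.H5 MP_182bbb_co.TT

variable {V : Type} [Fintype V] [DecidableEq V]

lemma mem_lk' {G : Finset (Finset V)} {x y z : V} :
    z ∈ lk G x y ↔ ({x, y, z} : Finset V) ∈ G := by
  unfold lk
  rw [mem_filter]
  exact ⟨fun h => h.2, fun h => ⟨mem_univ _, h⟩⟩

/-- triples pairwise share at most one vertex -/
def Lin (S : Finset (Finset V)) : Prop :=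
  ∀ s ∈ S, ∀ t ∈ S, ∀ x y : V, x ≠ y → x ∈ s → y ∈ s → x ∈ t → y ∈ t → s = t

/-- A 3-graph with more than `t` edges per pair contains a nonempty core. -/
lemma exists_core (t : ℕ) : ∀ (m : ℕ) (K : Finset (Finset V)), K.card ≤ m → IsUniform 3 K →
    t * ((univ : Finset (V × V)).filter (fun p => (lk K p.1 p.2).Nonempty)).card < K.card →
    ∃ K' ⊆ K, K'.Nonempty ∧ IsCore (t + 1) K' := by
  intro m
  induction m with
  | zero =>
    intro K hK _ h
    omega
  | succ m ih =>
    intro K hK hu h
    by_cases hcore : IsCore (t + 1) K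
    · refine ⟨K, Subset.rfl, ?_, hcore⟩
      rw [← card_pos]
      omega
    · unfold IsCore at hcore
      push Not at hcore
      obtain ⟨x, y, hne, hlt⟩ := hcore
      obtain ⟨z0, hz0⟩ := hne
      obtain ⟨hxy, _, _⟩ := ne_of_card_three (hu _ (mem_lk'.1 hz0))
      set K1 := K.filter (fun e => ¬ (({x, y} : Finset V) ⊆ e)) with hK1
      have hsplit : (K.filter (fun e => ({x, y} : Finset V) ⊆ e)).card + K1.card = K.card :=
        card_filter_add_card_filter_not _
      have hcod : (K.filter (fun e => ({x, y} : Finset V) ⊆ e)).card = (lk K x y).card :=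
        (card_lk hu hxy).symm
      have hpos : 0 < (lk K x y).card := card_pos.2 ⟨z0, hz0⟩
      set P := (univ : Finset (V × V)).filter (fun p => (lk K p.1 p.2).Nonempty) with hP
      set P1 := (univ : Finset (V × V)).filter (fun p => (lk K1 p.1 p.2).Nonempty) with hP1
      have hsub : P1 ⊆ P.erase (x, y) := by
        rintro ⟨u, v⟩ hp
        rw [hP1, mem_filter] at hp
        obtain ⟨w, hw⟩ := hp.2
        have hw' := mem_lk'.1 hw
        rw [hK1, mem_filter] at hw'
        dsimp only at hw'
        rw [mem_erase, hP, mem_filter]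
        refine ⟨?_, mem_univ _, ⟨w, mem_lk'.2 hw'.1⟩⟩
        intro h
        rw [Prod.mk.injEq] at h
        obtain ⟨rfl, rfl⟩ := h
        apply hw'.2
        intro a ha
        simp only [mem_insert, mem_singleton] at ha ⊢
        tauto
      have hmem : (x, y) ∈ P := by
        rw [hP, mem_filter]
        exact ⟨mem_univ _, ⟨z0, hz0⟩⟩
      have hcard := card_le_card hsub
      rw [card_erase_of_mem hmem] at hcard
      have hPpos : 0 < P.card := card_pos.2 ⟨_, hmem⟩
      have h3 : t * P1.card + t ≤ t * P.card := by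
        have : P1.card + 1 ≤ P.card := by omega
        calc t * P1.card + t = t * (P1.card + 1) := by ring
          _ ≤ t * P.card := Nat.mul_le_mul_left _ this
      obtain ⟨K', hK', h1, h2⟩ := ih K1 (by omega) (fun e he => hu e (mem_of_mem_filter e he))
        (show t * P1.card < K1.card by omega)
      exact ⟨K', hK'.trans (filter_subset _ _), h1, h2⟩

/-- Greedy embedding of the coded 2-tree into the triangles of a linear 3-graph. -/
lemma linear_greedy (hT : TREE_S) (N : ℕ) (b : ℕ → ℕ) {S K : Finset (Finset V)}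
    (hS : IsUniform 3 S) (hlin : Lin S) (hK : IsUniform 3 K)
    (hKS : ∀ e ∈ K, ∀ x ∈ e, ∀ y ∈ e, x ≠ y → ∃ s ∈ S, x ∈ s ∧ y ∈ s)
    (hne : K.Nonempty) (hc : IsCore (9 * N + 10) K) : HasExp N b S := by
  -- the third vertex
  have hf : ∀ x y : V, ∃ z, (∃ s ∈ S, x ∈ s ∧ y ∈ s) → x ≠ y → ({x, y, z} : Finset V) ∈ S := by
    intro x y
    by_cases h : (∃ s ∈ S, x ∈ s ∧ y ∈ s) ∧ x ≠ y
    · obtain ⟨⟨s, hs, hx, hy⟩, hxy⟩ := h
      obtain ⟨z, _, _, hz⟩ := exists_third (hS s hs) hxy hx hy
      exact ⟨z, fun _ _ => hz ▸ hs⟩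
    · exact ⟨x, fun h1 h2 => absurd ⟨h1, h2⟩ h⟩
  choose f hf using hf
  have uniq : ∀ x y z w : V, ({x, y, z} : Finset V) ∈ S → ({x, y, w} : Finset V) ∈ S →
      z = w := by
    intro x y z w h1 h2
    obtain ⟨hxy, hxz, hyz⟩ := ne_of_card_three (hS _ h1)
    have := hlin _ h1 _ h2 x y hxy (by simp) (by simp) (by simp) (by simp)
    have h3 : z ∈ ({x, y, w} : Finset V) := by rw [← this]; simp
    simp only [mem_insert, mem_singleton] at h3
    rcases h3 with h3 | h3 | h3
    · exact absurd h3.symm hxz
    · exact absurd h3.symm hyz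
    · exact h3
  have f_eq : ∀ x y z : V, ({x, y, z} : Finset V) ∈ S → f x y = z := by
    intro x y z h
    obtain ⟨hxy, _, _⟩ := ne_of_card_three (hS _ h)
    exact uniq x y _ _ (hf x y ⟨_, h, by simp, by simp⟩ hxy) h
  -- pairs in triples of `K`
  have hKf : ∀ x y z : V, ({x, y, z} : Finset V) ∈ K → ({x, y, f x y} : Finset V) ∈ S := by
    intro x y z h
    obtain ⟨hxy, _, _⟩ := ne_of_card_three (hK _ h)
    exact hf x y (hKS _ h x (by simp) y (by simp) hxy) hxy
  have key : ∀ m ≤ N, ∃ φ ξ : ℕ → V, Set.InjOn φ (Set.Iic (m + 1)) ∧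
      Set.InjOn ξ (Set.Iic (2 * m)) ∧ (∀ v ≤ m + 1, ∀ e ≤ 2 * m, φ v ≠ ξ e) ∧
      (∀ e ≤ 2 * m, (lk K (φ (ends b e).1) (φ (ends b e).2)).Nonempty) ∧
      ∀ e ≤ 2 * m, ({φ (ends b e).1, φ (ends b e).2, ξ e} : Finset V) ∈ S := by
    intro m
    induction m with
    | zero =>
      intro _
      obtain ⟨e, he⟩ := hne
      obtain ⟨x, y, z, hxy, hxz, hyz, rfl⟩ := card_eq_three.1 (hK e he)
      have h1 := hKf x y z he
      obtain ⟨_, h2, h3⟩ := ne_of_card_three (hS _ h1)
      refine ⟨fun i => if i = 0 then x else y, fun _ => f x y, ?_, ?_, ?_, ?_, ?_⟩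
      · intro i hi j hj hij
        simp only [Set.mem_Iic] at hi hj
        dsimp only at hij
        split_ifs at hij with h1 h2 h2
        · omega
        · exact absurd hij hxy
        · exact absurd hij.symm hxy
        · omega
      · intro i hi j hj _
        simp only [Set.mem_Iic] at hi hj
        omega
      · intro v _ e _
        dsimp only
        split_ifs
        · exact h2
        · exact h3
      · intro g hg
        have : g = 0 := by omega
        subst this
        rw [ends_zero]
        exact ⟨z, mem_lk'.2 he⟩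
      · intro g hg
        have : g = 0 := by omega
        subst this
        rw [ends_zero]
        exact h1
    | succ m ih =>
      intro hm
      obtain ⟨φ, ξ, hφ, hξ, hφξ, hlk, hS3⟩ := ih (by omega)
      have hb := bs_le b m
      have hpp := (hT b).2.1 m
      have hbase := hlk (bs b m) hb
      have hcard := hc _ _ hbase
      set a := φ (pA b m) with ha
      set c := φ (pB b m) with hcc
      have hac : a ≠ c := fun h =>
        hpp.2.2 (hφ (Set.mem_Iic.2 (by omega)) (Set.mem_Iic.2 (by omega)) h)
      set U := (range (m + 2)).image φ ∪ (range (2 * m + 1)).image ξ with hU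
      have hUc : U.card ≤ 3 * m + 3 := by
        have h2 := card_union_le ((range (m + 2)).image φ) ((range (2 * m + 1)).image ξ)
        have h3 := card_image_le (s := range (m + 2)) (f := φ)
        have h4 := card_image_le (s := range (2 * m + 1)) (f := ξ)
        rw [card_range] at h3 h4
        rw [← hU] at h2
        omega
      have hWc : (U ∪ (U.image (f a) ∪ U.image (f c))).card < (lk K a c).card := by
        have h2 := card_union_le U (U.image (f a) ∪ U.image (f c))
        have h3 := card_union_le (U.image (f a)) (U.image (f c))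
        have h4 := card_image_le (s := U) (f := f a)
        have h5 := card_image_le (s := U) (f := f c)
        have h6 : 9 * N + 10 ≤ (lk K a c).card := hcard
        omega
      obtain ⟨w, hw, hwn⟩ := exists_mem_notMem_of_card_lt_card hWc
      have hwU : w ∉ U := fun h => hwn (mem_union_left _ h)
      have hwa : w ∉ U.image (f a) := fun h => hwn (mem_union_right _ (mem_union_left _ h))
      have hwc : w ∉ U.image (f c) := fun h => hwn (mem_union_right _ (mem_union_right _ h))
      have htri : ({a, c, w} : Finset V) ∈ K := mem_lk'.1 hw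
      have htri1 : ({w, a, c} : Finset V) ∈ K := by rw [← rot]; exact htri
      have htri2 : ({w, c, a} : Finset V) ∈ K := by rw [swap23]; exact htri1
      have hSa : ({w, a, f w a} : Finset V) ∈ S := hKf _ _ _ htri1
      have hSc : ({w, c, f w c} : Finset V) ∈ S := hKf _ _ _ htri2
      obtain ⟨hwa1, hwf1, haf1⟩ := ne_of_card_three (hS _ hSa)
      obtain ⟨hwc1, hwf2, hcf2⟩ := ne_of_card_three (hS _ hSc)
      have hfaU : f w a ∉ U := by
        intro h
        apply hwa
        refine mem_image.2 ⟨f w a, h, ?_⟩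
        apply f_eq
        rw [rot]
        exact hSa
      have hfcU : f w c ∉ U := by
        intro h
        apply hwc
        refine mem_image.2 ⟨f w c, h, ?_⟩
        apply f_eq
        rw [rot]
        exact hSc
      have hff : f w a ≠ f w c := by
        intro h
        rw [← h] at hSc
        have h1 : ({w, f w a, a} : Finset V) ∈ S := by rw [swap23]; exact hSa
        have h2 : ({w, f w a, c} : Finset V) ∈ S := by rw [swap23]; exact hSc
        exact hac (uniq _ _ _ _ h1 h2)
      have hUφ : ∀ v ≤ m + 1, φ v ∈ U := by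
        intro v hv
        exact mem_union_left _ (mem_image.2 ⟨v, mem_range.2 (by omega), rfl⟩)
      have hUξ : ∀ e ≤ 2 * m, ξ e ∈ U := by
        intro e he
        exact mem_union_right _ (mem_image.2 ⟨e, mem_range.2 (by omega), rfl⟩)
      set φ' := Function.update φ (m + 2) w with hφ'
      set ξ' : ℕ → V := fun e => if e ≤ 2 * m then ξ e else if e = 2 * m + 1 then f w a
        else f w c with hξ'
      have hold : ∀ v ≤ m + 1, φ' v = φ v := by
        intro v hv
        rw [hφ', Function.update_of_ne (by omega)]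
      have hnew : φ' (m + 2) = w := by rw [hφ', Function.update_self]
      have oldξ : ∀ e ≤ 2 * m, ξ' e = ξ e := by
        intro e he
        rw [hξ']
        dsimp only
        rw [if_pos he]
      have newξ1 : ξ' (2 * m + 1) = f w a := by
        rw [hξ']
        dsimp only
        rw [if_neg (by omega), if_pos rfl]
      have newξ2 : ξ' (2 * m + 2) = f w c := by
        rw [hξ']
        dsimp only
        rw [if_neg (by omega), if_neg (by omega)]
      have case1 : ∀ v ≤ m + 1 + 1, v ≤ m + 1 ∨ v = m + 2 := fun v hv => by omega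
      have case2 : ∀ e ≤ 2 * (m + 1), e ≤ 2 * m ∨ e = 2 * m + 1 ∨ e = 2 * m + 2 :=
        fun e he => by omega
      refine ⟨φ', ξ', ?_, ?_, ?_, ?_, ?_⟩
      · intro i hi j hj hij
        rw [Set.mem_Iic] at hi hj
        rcases case1 i hi with h1 | h1
        · rcases case1 j hj with h2 | h2
          · rw [hold i h1, hold j h2] at hij
            exact hφ (Set.mem_Iic.2 h1) (Set.mem_Iic.2 h2) hij
          · rw [h2, hold i h1, hnew] at hij
            exact absurd (hij ▸ hUφ i h1) hwU
        · rcases case1 j hj with h2 | h2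
          · rw [h1, hold j h2, hnew] at hij
            exact absurd (hij ▸ hUφ j h2) hwU
          · omega
      · intro i hi j hj hij
        rw [Set.mem_Iic] at hi hj
        rcases case2 i hi with h1 | h1 | h1
        · rcases case2 j hj with h2 | h2 | h2
          · rw [oldξ i h1, oldξ j h2] at hij
            exact hξ (Set.mem_Iic.2 h1) (Set.mem_Iic.2 h2) hij
          · rw [h2, oldξ i h1, newξ1] at hij
            exact absurd (hij ▸ hUξ i h1) hfaU
          · rw [h2, oldξ i h1, newξ2] at hij
            exact absurd (hij ▸ hUξ i h1) hfcU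
        · rcases case2 j hj with h2 | h2 | h2
          · rw [h1, oldξ j h2, newξ1] at hij
            exact absurd (hij ▸ hUξ j h2) hfaU
          · omega
          · rw [h1, h2, newξ1, newξ2] at hij
            exact absurd hij hff
        · rcases case2 j hj with h2 | h2 | h2
          · rw [h1, oldξ j h2, newξ2] at hij
            exact absurd (hij ▸ hUξ j h2) hfcU
          · rw [h1, h2, newξ1, newξ2] at hij
            exact absurd hij.symm hff
          · omega
      · intro v hv e he h
        rcases case1 v hv with h1 | h1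
        · rcases case2 e he with h2 | h2 | h2
          · rw [hold v h1, oldξ e h2] at h
            exact hφξ v h1 e h2 h
          · rw [h2, hold v h1, newξ1] at h
            exact hfaU (h ▸ hUφ v h1)
          · rw [h2, hold v h1, newξ2] at h
            exact hfcU (h ▸ hUφ v h1)
        · rcases case2 e he with h2 | h2 | h2
          · rw [h1, hnew, oldξ e h2] at h
            exact hwU (h ▸ hUξ e h2)
          · rw [h1, h2, hnew, newξ1] at h
            exact hwf1 h
          · rw [h1, h2, hnew, newξ2] at h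
            exact hwf2 h
      · intro e he
        rcases case2 e he with h2 | h2 | h2
        · have h3 := (hT b).1 e
          rw [hold _ (by omega), hold _ (by omega)]
          exact hlk e h2
        · rw [h2, ends_odd]
          dsimp only
          rw [hnew, hold _ hpp.1]
          exact ⟨c, mem_lk'.2 htri1⟩
        · rw [h2, ends_even]
          dsimp only
          rw [hnew, hold _ hpp.2.1]
          exact ⟨a, mem_lk'.2 htri2⟩
      · intro e he
        rcases case2 e he with h2 | h2 | h2
        · have h3 := (hT b).1 e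
          rw [hold _ (by omega), hold _ (by omega), oldξ e h2]
          exact hS3 e h2
        · rw [h2, ends_odd]
          dsimp only
          rw [hnew, hold _ hpp.1, newξ1]
          exact hSa
        · rw [h2, ends_even]
          dsimp only
          rw [hnew, hold _ hpp.2.1, newξ2]
          exact hSc
  obtain ⟨φ, ξ, h1, h2, h3, _, h5⟩ := key N le_rfl
  exact ⟨φ, ξ, h1, h2, h3, fun e he => mem_lk'.2 (h5 e he)⟩

/-- A dense linear 3-graph contains the expansion. -/
lemma linear_dense (hT : TREE_S) (N : ℕ) (b : ℕ → ℕ) {δ : ℝ} (hδ : 0 < δ)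
    {S : Finset (Finset V)} (hS : IsUniform 3 S) (hlin : Lin S)
    (hn : (9 * N + 9) / SimpleGraph.triangleRemovalBound δ < Fintype.card V)
    (hSc : δ * (Fintype.card V : ℝ) ^ 2 ≤ S.card) : HasExp N b S := by
  classical
  set bd := SimpleGraph.triangleRemovalBound δ with hbd
  have hb : 0 < bd := SimpleGraph.triangleRemovalBound_pos hδ
  set K := (shGraph S).cliqueFinset 3 with hK
  have htri : S ⊆ K := by
    intro s hs
    rw [hK, SimpleGraph.mem_cliqueFinset_iff, SimpleGraph.isNClique_iff]
    refine ⟨?_, hS s hs⟩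
    intro x hx y hy hxy
    exact ⟨hxy, s, hs, mem_coe.1 hx, mem_coe.1 hy⟩
  have hfar : (shGraph S).FarFromTriangleFree δ := by
    refine SimpleGraph.farFromTriangleFree_of_disjoint_triangles S htri ?_ ?_
    · intro s hs t ht hst x hx y hy
      by_contra hxy
      exact hst (hlin s (mem_coe.1 hs) t (mem_coe.1 ht) x y hxy hx.1 hy.1 hx.2 hy.2)
    · push_cast
      exact hSc
  have hcount := hfar.le_card_cliqueFinset
  have hKu : IsUniform 3 K := by
    intro e he
    rw [hK, SimpleGraph.mem_cliqueFinset_iff] at he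
    exact he.card_eq
  have hKS : ∀ e ∈ K, ∀ x ∈ e, ∀ y ∈ e, x ≠ y → ∃ s ∈ S, x ∈ s ∧ y ∈ s := by
    intro e he x hx y hy hxy
    rw [hK, SimpleGraph.mem_cliqueFinset_iff] at he
    exact (he.isClique (mem_coe.2 hx) (mem_coe.2 hy) hxy).2
  have hVpos : (0 : ℝ) < Fintype.card V := by
    refine lt_of_le_of_lt ?_ hn
    positivity
  have hlt : ((9 * N + 9) * ((univ : Finset (V × V)).filter
      (fun p => (lk K p.1 p.2).Nonempty)).card : ℕ) < K.card := by
    have h1 : ((univ : Finset (V × V)).filter (fun p => (lk K p.1 p.2).Nonempty)).card ≤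
        Fintype.card V ^ 2 := by
      refine (card_filter_le _ _).trans ?_
      rw [card_univ, Fintype.card_prod, sq]
    have h2 : ((9 * N + 9 : ℕ) : ℝ) * (Fintype.card V : ℝ) ^ 2 < K.card := by
      refine lt_of_lt_of_le ?_ hcount
      rw [div_lt_iff₀ hb] at hn
      push_cast
      have h6 : (0 : ℝ) < (Fintype.card V : ℝ) ^ 2 := by positivity
      have h8 := mul_lt_mul_of_pos_right hn h6
      calc (9 * N + 9 : ℝ) * (Fintype.card V : ℝ) ^ 2 <
          (Fintype.card V * bd) * (Fintype.card V : ℝ) ^ 2 := h8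
        _ = bd * (Fintype.card V : ℝ) ^ 3 := by ring
    have h3 : (((9 * N + 9) * Fintype.card V ^ 2 : ℕ) : ℝ) < K.card := by
      push_cast at h2 ⊢
      exact h2
    have h4 : (9 * N + 9) * Fintype.card V ^ 2 < K.card := by exact_mod_cast h3
    exact lt_of_le_of_lt (Nat.mul_le_mul_left _ h1) h4
  obtain ⟨K', hK', hne, hcore⟩ := exists_core (9 * N + 9) K.card K le_rfl hKu hlt
  exact linear_greedy hT N b hS hlin (fun e he => hKu e (hK' he))
    (fun e he => hKS e (hK' he)) hne hcore

lemma HasExp.mono' {N : ℕ} {b : ℕ → ℕ} {F G : Finset (Finset V)} (hFG : F ⊆ G)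
    (h : HasExp N b F) : HasExp N b G := by
  obtain ⟨φ, ξ, h1, h2, h3, h4⟩ := h
  exact ⟨φ, ξ, h1, h2, h3, fun e he => mem_lk'.2 (hFG (mem_lk'.1 (h4 e he)))⟩

theorem all_light (hT : TREE_S) : ALL_S := by
  intro N b d ε hε
  set δ : ℝ := ε / (81 * (d + 1)) with hδ
  have hd0 : (0 : ℝ) < 81 * (d + 1) := by positivity
  have hδ0 : 0 < δ := div_pos hε hd0
  refine ⟨⌈(9 * N + 9) / SimpleGraph.triangleRemovalBound δ⌉₊ + 1, ?_⟩
  intro V _ _ G hn hG hfree
  classical
  by_contra hcon
  push Not at hcon
  apply hfree
  set F := G.filter (fun e => ∀ x ∈ e, ∀ y ∈ e, x ≠ y → (lk G x y).card ≤ d) with hF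
  have hFG : F ⊆ G := filter_subset _ _
  have hFu : IsUniform 3 F := fun e he => hG e (hFG he)
  have hcnt : cnt3 (fun x y w : V => ({x, y, w} : Finset V) ∈ G ∧ (lk G x y).card ≤ d ∧
    (lk G x w).card ≤ d ∧ (lk G y w).card ≤ d) ≤ F.card * 27 := by
    unfold cnt3
    have hsub : (univ : Finset (V × V × V)).filter (fun p => ({p.1, p.2.1, p.2.2} : Finset V) ∈ G ∧
        (lk G p.1 p.2.1).card ≤ d ∧ (lk G p.1 p.2.2).card ≤ d ∧ (lk G p.2.1 p.2.2).card ≤ d) ⊆
        F.biUnion (fun e => e ×ˢ e ×ˢ e) := by
      rintro ⟨x, y, w⟩ hp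
      rw [mem_filter] at hp
      obtain ⟨_, h1, h2, h3, h4⟩ := hp
      dsimp only at h1 h2 h3 h4
      rw [mem_biUnion]
      refine ⟨{x, y, w}, ?_, ?_⟩
      · rw [hF, mem_filter]
        refine ⟨h1, ?_⟩
        have hsymm : ∀ u v : V, (lk G u v).card = (lk G v u).card := by
          intro u v
          congr 1
          ext z
          rw [mem_lk', mem_lk', swap12]
        intro u hu v hv huv
        simp only [mem_insert, mem_singleton] at hu hv
        rcases hu with rfl | rfl | rfl <;> rcases hv with rfl | rfl | rfl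
        · exact absurd rfl huv
        · exact h2
        · exact h3
        · rw [hsymm]; exact h2
        · exact absurd rfl huv
        · exact h4
        · rw [hsymm]; exact h3
        · rw [hsymm]; exact h4
        · exact absurd rfl huv
      · simp
    have h1 : (F.biUnion (fun e => e ×ˢ e ×ˢ e)).card ≤ F.card * 27 := by
      refine card_biUnion_le_card_mul _ _ _ ?_
      intro e he
      rw [card_product, card_product, hFu e he]
    refine (card_le_card ?_).trans h1
    convert hsub
  have hcod : ∀ x y : V, x ≠ y → cod F {x, y} ≤ d := by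
    intro x y hxy
    rw [← card_lk hFu hxy]
    by_cases h : (lk F x y).Nonempty
    · obtain ⟨z, hz⟩ := h
      have hz' := mem_lk'.1 hz
      rw [hF, mem_filter] at hz'
      have h1 := hz'.2 x (by simp) y (by simp) hxy
      refine (card_le_card ?_).trans h1
      intro w hw
      exact mem_lk'.2 (hFG (mem_lk'.1 hw))
    · rw [not_nonempty_iff_eq_empty] at h
      rw [h]
      simp
  obtain ⟨S, hSF, hSc, hlin⟩ := exists_linear hFu hcod
  refine HasExp.mono' (hSF.trans hFG) ?_
  refine linear_dense hT N b hδ0 (fun e he => hFu e (hSF he)) hlin ?_ ?_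
  · have h4 : ((9 * N + 9) / SimpleGraph.triangleRemovalBound δ : ℝ) ≤
        ⌈(9 * N + 9) / SimpleGraph.triangleRemovalBound δ⌉₊ := Nat.le_ceil _
    have h5 : ((⌈(9 * N + 9) / SimpleGraph.triangleRemovalBound δ⌉₊ + 1 : ℕ) : ℝ) ≤
        Fintype.card V := Nat.cast_le.2 hn
    push_cast at h5
    linarith
  · have h1 : ((F.card : ℕ) : ℝ) ≤ ((3 * d * S.card : ℕ) : ℝ) := Nat.cast_le.2 hSc
    have h2 : ((cnt3 (fun x y w : V => ({x, y, w} : Finset V) ∈ G ∧ (lk G x y).card ≤ d ∧
      (lk G x w).card ≤ d ∧ (lk G y w).card ≤ d) : ℕ) : ℝ) ≤ ((F.card * 27 : ℕ) : ℝ) :=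
      Nat.cast_le.2 hcnt
    push_cast at h1 h2
    have h3 : (0 : ℝ) ≤ S.card := Nat.cast_nonneg _
    rw [hδ, div_mul_eq_mul_div, div_le_iff₀ hd0]
    nlinarith

end MP_182bbb_co.TT.H95
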