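import Pool.Agent.Lib.MP_182bbb_co.TT.Iface

/-!
# GREED: large nonzero codegrees give the expansion
-/

open Finset

namespace MP_182bbb_co.TT.H95

open MP_182bbb_co.H5 MP_182bbb_co.TT

variable {V : Type} [Fintype V] [DecidableEq V]

lemma mem_lk {G : Finset (Finset V)} {x y z : V} : z ∈ lk G x y ↔ ({x, y, z} : Finset V) ∈ G := by
  unfold lk
  rw [mem_filter]
  exact ⟨fun h => h.2, fun h => ⟨mem_univ _, h⟩⟩

/-- Placement of the vertices. -/
lemma greed_place (hT : TREE_S) (N : ℕ) (b : ℕ → ℕ) {F : Finset (Finset V)}
    (hF : IsUniform 3 F) (hne : F.Nonempty) (hc : IsCore (3 * N + 3) F) :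
    ∀ m ≤ N, ∃ φ : ℕ → V, Set.InjOn φ (Set.Iic (m + 1)) ∧
      ∀ e ≤ 2 * m, (lk F (φ (ends b e).1) (φ (ends b e).2)).Nonempty := by
  intro m
  induction m with
  | zero =>
    intro _
    obtain ⟨e, he⟩ := hne
    obtain ⟨x, y, z, hxy, hxz, hyz, rfl⟩ := card_eq_three.1 (hF e he)
    refine ⟨fun i => if i = 0 then x else y, ?_, ?_⟩
    · intro i hi j hj hij
      simp only [Set.mem_Iic] at hi hj
      dsimp only at hij
      split_ifs at hij with h1 h2 h2
      · omega
      · exact absurd hij hxy
      · exact absurd hij.symm hxy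
      · omega
    · intro f hf
      have : f = 0 := by omega
      subst this
      refine ⟨z, mem_lk.2 ?_⟩
      rw [ends_zero]
      exact he
  | succ m ih =>
    intro hm
    obtain ⟨φ, hinj, hlk⟩ := ih (by omega)
    have hb := bs_le b m
    have hbase := hlk (bs b m) hb
    have hcard := hc _ _ hbase
    have himg : ((range (m + 2)).image φ).card ≤ m + 2 := by
      have := card_image_le (s := range (m + 2)) (f := φ)
      rwa [card_range] at this
    have hlt : ((range (m + 2)).image φ).card <
        (lk F (φ (ends b (bs b m)).1) (φ (ends b (bs b m)).2)).card := by omega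
    obtain ⟨w, hw, hwn⟩ := exists_mem_notMem_of_card_lt_card hlt
    have hwφ : ∀ v ≤ m + 1, φ v ≠ w := by
      intro v hv h
      exact hwn (mem_image.2 ⟨v, mem_range.2 (by omega), h⟩)
    have hold : ∀ v ≤ m + 1, Function.update φ (m + 2) w v = φ v := by
      intro v hv
      rw [Function.update_of_ne (by omega)]
    have hpA := ((hT b).2.1 m).1
    have hpB := ((hT b).2.1 m).2.1
    have htri : ({φ (pA b m), φ (pB b m), w} : Finset V) ∈ F := mem_lk.1 hw
    refine ⟨Function.update φ (m + 2) w, ?_, ?_⟩
    · intro i hi j hj hij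
      simp only [Set.mem_Iic] at hi hj
      by_cases h1 : i = m + 2
      · by_cases h2 : j = m + 2
        · omega
        · rw [h1, Function.update_self, hold j (by omega)] at hij
          exact absurd hij.symm (hwφ j (by omega))
      · by_cases h2 : j = m + 2
        · rw [h2, Function.update_self, hold i (by omega)] at hij
          exact absurd hij (hwφ i (by omega))
        · rw [hold i (by omega), hold j (by omega)] at hij
          exact hinj (Set.mem_Iic.2 (by omega)) (Set.mem_Iic.2 (by omega)) hij
    · intro e he
      by_cases h1 : e ≤ 2 * m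
      · have h2 := (hT b).1 e
        rw [hold _ (by omega), hold _ (by omega)]
        exact hlk e h1
      · have h2 : e = 2 * m + 1 ∨ e = 2 * m + 2 := by omega
        rcases h2 with rfl | rfl
        · rw [ends_odd]
          dsimp only
          rw [Function.update_self, hold _ hpA]
          refine ⟨φ (pB b m), mem_lk.2 ?_⟩
          rw [← rot]
          exact htri
        · rw [ends_even]
          dsimp only
          rw [Function.update_self, hold _ hpB]
          refine ⟨φ (pA b m), mem_lk.2 ?_⟩
          rw [← rot, swap12]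
          exact htri

omit [Fintype V] in
/-- Choice of the expansion vertices. -/
lemma greed_exp (N : ℕ) (φ : ℕ → V) (L : ℕ → Finset V)
    (hL : ∀ e ≤ 2 * N, 3 * N + 3 ≤ (L e).card) :
    ∀ m ≤ 2 * N + 1, ∃ ξ : ℕ → V, Set.InjOn ξ (Set.Iio m) ∧
      (∀ v ≤ N + 1, ∀ e < m, φ v ≠ ξ e) ∧ ∀ e < m, ξ e ∈ L e := by
  intro m
  induction m with
  | zero =>
    intro _
    refine ⟨φ, ?_, ?_, ?_⟩
    · intro i hi
      simp at hi
    · intro v _ e he
      omega
    · intro e he
      omega
  | succ m ih =>
    intro hm
    obtain ⟨ξ, hinj, hφ, hmem⟩ := ih (by omega)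
    have h1 : ((range (N + 2)).image φ ∪ (range m).image ξ).card ≤ N + 2 + m := by
      have h2 := card_union_le ((range (N + 2)).image φ) ((range m).image ξ)
      have h3 := card_image_le (s := range (N + 2)) (f := φ)
      have h4 := card_image_le (s := range m) (f := ξ)
      rw [card_range] at h3 h4
      omega
    have h2 := hL m (by omega)
    obtain ⟨w, hw, hwn⟩ := exists_mem_notMem_of_card_lt_card
      (show ((range (N + 2)).image φ ∪ (range m).image ξ).card < (L m).card by omega)
    rw [mem_union, not_or] at hwn
    have hwφ : ∀ v ≤ N + 1, φ v ≠ w := by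
      intro v hv h
      exact hwn.1 (mem_image.2 ⟨v, mem_range.2 (by omega), h⟩)
    have hwξ : ∀ e < m, ξ e ≠ w := by
      intro e he h
      exact hwn.2 (mem_image.2 ⟨e, mem_range.2 he, h⟩)
    have hold : ∀ e < m, Function.update ξ m w e = ξ e := by
      intro e he
      rw [Function.update_of_ne (by omega)]
    refine ⟨Function.update ξ m w, ?_, ?_, ?_⟩
    · intro i hi j hj hij
      simp only [Set.mem_Iio] at hi hj
      by_cases h1 : i = m
      · by_cases h2 : j = m
        · omega
        · rw [h1, Function.update_self, hold j (by omega)] at hij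
          exact absurd hij.symm (hwξ j (by omega))
      · by_cases h2 : j = m
        · rw [h2, Function.update_self, hold i (by omega)] at hij
          exact absurd hij (hwξ i (by omega))
        · rw [hold i (by omega), hold j (by omega)] at hij
          exact hinj (Set.mem_Iio.2 (by omega)) (Set.mem_Iio.2 (by omega)) hij
    · intro v hv e he
      by_cases h1 : e = m
      · rw [h1, Function.update_self]
        exact hwφ v hv
      · rw [hold e (by omega)]
        exact hφ v hv e (by omega)
    · intro e he
      by_cases h1 : e = m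
      · rw [h1, Function.update_self]
        exact hw
      · rw [hold e (by omega)]
        exact hmem e (by omega)

theorem greed (hT : TREE_S) : GREED_S := by
  intro V _ _ N b F hF hne hc
  obtain ⟨φ, hinj, hlk⟩ := greed_place hT N b hF hne hc N le_rfl
  obtain ⟨ξ, hξ, hφξ, hmem⟩ := greed_exp N φ
    (fun e => lk F (φ (ends b e).1) (φ (ends b e).2)) (fun e he => hc _ _ (hlk e he))
    (2 * N + 1) le_rfl
  refine ⟨φ, ξ, hinj, ?_, ?_, ?_⟩
  · intro i hi j hj hij
    rw [Set.mem_Iic] at hi hj
    exact hξ (Set.mem_Iio.2 (by omega)) (Set.mem_Iio.2 (by omega)) hij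
  · intro v hv e he
    exact hφξ v hv e (by omega)
  · intro e he
    exact hmem e (by omega)

end MP_182bbb_co.TT.H95
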