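import Pool.Agent.Lib.MP_182bbb_co.TT.Iface

/-!
# LOWER: the star with `N` centres does not contain the expansion
-/

open Finset

namespace MP_182bbb_co.TT.H95

open MP_182bbb_co.H5 MP_182bbb_co.TT

variable {V : Type} [Fintype V] [DecidableEq V]

lemma mem_lk_star {L : Finset V} {x y z : V} (h : z ∈ lk (H5.star L) x y) :
    (({x, y, z} : Finset V) ∩ L).card = 1 := by
  unfold lk at h
  have h1 := (mem_filter.1 h).2
  unfold H5.star at h1
  exact (mem_filter.1 h1).2.2

lemma star_some {L : Finset V} {x y z : V} (h : z ∈ lk (H5.star L) x y) :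
    x ∈ L ∨ y ∈ L ∨ z ∈ L := by
  have h1 := mem_lk_star h
  obtain ⟨u, hu⟩ := card_eq_one.1 h1
  have h2 : u ∈ ({x, y, z} : Finset V) ∩ L := by rw [hu]; exact mem_singleton_self u
  rw [mem_inter, mem_insert, mem_insert, mem_singleton] at h2
  rcases h2 with ⟨h2 | h2 | h2, h3⟩
  · exact Or.inl (h2 ▸ h3)
  · exact Or.inr (Or.inl (h2 ▸ h3))
  · exact Or.inr (Or.inr (h2 ▸ h3))

lemma star_not_both {L : Finset V} {x y z : V} (hxy : x ≠ y) (h : z ∈ lk (H5.star L) x y) :
    x ∉ L ∨ y ∉ L := by
  by_contra hcon
  push Not at hcon
  have h1 := mem_lk_star h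
  obtain ⟨u, hu⟩ := card_eq_one.1 h1
  have hx : x ∈ ({x, y, z} : Finset V) ∩ L := mem_inter.2 ⟨by simp, hcon.1⟩
  have hy : y ∈ ({x, y, z} : Finset V) ∩ L := mem_inter.2 ⟨by simp, hcon.2⟩
  rw [hu, mem_singleton] at hx hy
  exact hxy (hx.trans hy.symm)

theorem lower (hT : TREE_S) : LOWER_S := by
  intro V _ _ N b L hL hexp
  classical
  obtain ⟨φ, ξ, hφ, hξ, hφξ, hmem⟩ := hexp
  have key : ∀ m ≤ N, m + 1 ≤ ((range (m + 2)).filter (fun v => φ v ∈ L)).card +
      ((range (2 * m + 1)).filter (fun e => ξ e ∈ L)).card := by
    intro m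
    induction m with
    | zero =>
      intro _
      have h := star_some (hmem 0 (by omega))
      rw [ends_zero] at h
      dsimp only at h
      have h2 : 0 < ((range (0 + 2)).filter (fun v => φ v ∈ L)).card +
          ((range (2 * 0 + 1)).filter (fun e => ξ e ∈ L)).card := by
        rcases h with h | h | h
        · have : 0 < ((range (0 + 2)).filter (fun v => φ v ∈ L)).card :=
            card_pos.2 ⟨0, mem_filter.2 ⟨mem_range.2 (by omega), h⟩⟩
          omega
        · have : 0 < ((range (0 + 2)).filter (fun v => φ v ∈ L)).card :=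
            card_pos.2 ⟨1, mem_filter.2 ⟨mem_range.2 (by omega), h⟩⟩
          omega
        · have : 0 < ((range (2 * 0 + 1)).filter (fun e => ξ e ∈ L)).card :=
            card_pos.2 ⟨0, mem_filter.2 ⟨mem_range.2 (by omega), h⟩⟩
          omega
      omega
    | succ m ih =>
      intro hm
      have h0 := ih (by omega)
      have hmonA : (range (m + 2)).filter (fun v => φ v ∈ L) ⊆
          (range (m + 1 + 2)).filter (fun v => φ v ∈ L) := by
        intro v hv
        rw [mem_filter, mem_range] at hv ⊢
        exact ⟨by omega, hv.2⟩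
      have hmonB : (range (2 * m + 1)).filter (fun e => ξ e ∈ L) ⊆
          (range (2 * (m + 1) + 1)).filter (fun e => ξ e ∈ L) := by
        intro v hv
        rw [mem_filter, mem_range] at hv ⊢
        exact ⟨by omega, hv.2⟩
      have hA := card_le_card hmonA
      have hB := card_le_card hmonB
      have growA : φ (m + 2) ∈ L → ((range (m + 2)).filter (fun v => φ v ∈ L)).card + 1 ≤
          ((range (m + 1 + 2)).filter (fun v => φ v ∈ L)).card := by
        intro h
        rw [← card_insert_of_notMem (a := m + 2)
          (s := (range (m + 2)).filter (fun v => φ v ∈ L)) (by simp)]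
        refine card_le_card (insert_subset ?_ hmonA)
        rw [mem_filter, mem_range]
        exact ⟨by omega, h⟩
      have growB : ∀ e, 2 * m + 1 ≤ e → e ≤ 2 * m + 2 → ξ e ∈ L →
          ((range (2 * m + 1)).filter (fun e => ξ e ∈ L)).card + 1 ≤
          ((range (2 * (m + 1) + 1)).filter (fun e => ξ e ∈ L)).card := by
        intro e h1 h2 h
        rw [← card_insert_of_notMem (a := e)
          (s := (range (2 * m + 1)).filter (fun e => ξ e ∈ L)) (by
            rw [mem_filter, mem_range]
            intro h3
            omega)]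
        refine card_le_card (insert_subset ?_ hmonB)
        rw [mem_filter, mem_range]
        exact ⟨by omega, h⟩
      by_cases hv : φ (m + 2) ∈ L
      · have := growA hv
        omega
      · have hb := bs_le b m
        have hp := (hT b).2.1 m
        have hne : φ (pA b m) ≠ φ (pB b m) := fun h =>
          hp.2.2 (hφ (Set.mem_Iic.2 (by omega)) (Set.mem_Iic.2 (by omega)) h)
        have hbase := hmem (bs b m) (by omega)
        rcases star_not_both hne hbase with h1 | h1
        · have h2 := star_some (hmem (2 * m + 1) (by omega))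
          rw [ends_odd] at h2
          dsimp only at h2
          have h3 : ξ (2 * m + 1) ∈ L := by tauto
          have := growB _ (by omega) (by omega) h3
          omega
        · have h2 := star_some (hmem (2 * m + 2) (by omega))
          rw [ends_even] at h2
          dsimp only at h2
          have h3 : ξ (2 * m + 2) ∈ L := by tauto
          have := growB _ (by omega) (by omega) h3
          omega
  have h1 := key N le_rfl
  set A := (range (N + 2)).filter (fun v => φ v ∈ L) with hA
  set B := (range (2 * N + 1)).filter (fun e => ξ e ∈ L) with hB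
  have hsub : A.image φ ∪ B.image ξ ⊆ L := by
    intro x hx
    rw [mem_union, mem_image, mem_image] at hx
    rcases hx with ⟨v, hv, rfl⟩ | ⟨e, he, rfl⟩
    · exact (mem_filter.1 hv).2
    · exact (mem_filter.1 he).2
  have hdis : Disjoint (A.image φ) (B.image ξ) := by
    rw [disjoint_left]
    intro x hx hx'
    obtain ⟨v, hv, rfl⟩ := mem_image.1 hx
    obtain ⟨e, he, h⟩ := mem_image.1 hx'
    rw [hA, mem_filter, mem_range] at hv
    rw [hB, mem_filter, mem_range] at he
    exact hφξ v (by omega) e (by omega) h.symm
  have hcA : (A.image φ).card = A.card := by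
    refine card_image_of_injOn ?_
    intro i hi j hj hij
    rw [hA, mem_coe, mem_filter, mem_range] at hi hj
    exact hφ (Set.mem_Iic.2 (by omega)) (Set.mem_Iic.2 (by omega)) hij
  have hcB : (B.image ξ).card = B.card := by
    refine card_image_of_injOn ?_
    intro i hi j hj hij
    rw [hB, mem_coe, mem_filter, mem_range] at hi hj
    exact hξ (Set.mem_Iic.2 (by omega)) (Set.mem_Iic.2 (by omega)) hij
  have h2 := card_le_card hsub
  rw [card_union_of_disjoint hdis, hcA, hcB] at h2
  omega

end MP_182bbb_co.TT.H95
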